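import Pool.Agent.H18.SubG

set_option autoImplicit false

namespace Pool.Agent.Results.MP_5cfb27_co.Bounded
open H18.SubG

theorem result (S : Finset ℕ) (hne : S.Nonempty) (h0 : 0 ∉ S) (c d c' d' : Bool) (h : ℕ) :
    |((o S c' d' h).1 : ℤ) - (o S c d h).1| ≤ 3 * (S.max' hne : ℕ) ∧
    |((o S c' d' h).2 : ℤ) - (o S c d h).2| ≤ 3 * (S.max' hne : ℕ) := by
  have hm := S.max'_mem hne
  have hp : 0 < S.max' hne := Nat.pos_of_ne_zero fun e => h0 (e ▸ hm)
  have hS : ∀ s ∈ S, s ≤ S.max' hne := fun s hs => S.le_max' s hs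
  have a1 := fst_ge hm hp hS h c d
  have a2 := fst_ge hm hp hS h c' d'
  have b1 := snd_ge hm hp hS h c d
  have b2 := snd_ge hm hp hS h c' d'
  have c1 := sum_le S h c d
  have c2 := sum_le S h c' d'
  rw [abs_le, abs_le]
  omega

end Pool.Agent.Results.MP_5cfb27_co.Bounded
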